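import Pool.Agent.H211.CH.Stm2

/-!
Lifting through a power.
-/

set_option autoImplicit false

open Polynomial

namespace Pool.Agent.H10.CH211

open Pool.Agent.H211.CH

universe u

theorem t_A2b {K : Type u} [Field K] [IsAlgClosed K] [CharZero K] : S_A2b K := by
  intro P S m r w c a hm hc hP
  obtain ⟨γ, hγ⟩ := IsAlgClosed.exists_pow_nat_eq (c ^ r / c) (n := m) (by omega)
  have hγ' : c * γ ^ m = c ^ r := by
    rw [hγ]
    field_simp
  have hP' : P = C w + (X - C w) ^ r * S ^ m := by
    rw [← hP]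
    ring
  refine ⟨C a + C γ * ((X - C a) ^ r * S.comp (C w + C c * (X - C a) ^ m)), ?_⟩
  have h1 : P.comp (C w + C c * (X - C a) ^ m) =
      C w + C (c ^ r) * ((X - C a) ^ r * S.comp (C w + C c * (X - C a) ^ m)) ^ m := by
    rw [hP']
    simp only [add_comp, mul_comp, pow_comp, sub_comp, X_comp, C_comp, map_pow]
    ring
  have h2 : (C w + C c * (X - C a) ^ m : K[X]).comp
      (C a + C γ * ((X - C a) ^ r * S.comp (C w + C c * (X - C a) ^ m))) =
      C w + C (c * γ ^ m) * ((X - C a) ^ r * S.comp (C w + C c * (X - C a) ^ m)) ^ m := by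
    simp only [add_comp, mul_comp, pow_comp, sub_comp, X_comp, C_comp, map_pow, map_mul]
    ring
  rw [h1, h2, hγ']

end Pool.Agent.H10.CH211
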